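import Pool.Agent.H72.AAP.Targets
import Pool.Agent.H67.BF.AAR
import Pool.Agent.H67.BF.CNTR

set_option autoImplicit false

open Finset Filter

namespace Pool.Agent.H19.AAP.CUF

open Pool.Agent.H72.AAP Pool.Agent.H72.BF

theorem pf_CUF (hPKG : T_PKG) (hEVP : T_EVP) (hBF : BakerFeldman) (hBFF : T_BFF)
    (hG : T_GCR) : T_CUF := by
  classical
  intro r d
  obtain ⟨κ, hκ⟩ := hG r d
  refine ⟨κ, fun X hX A => ?_⟩
  by_contra hcon
  push Not at hcon
  choose H hH2 ξ hξ hH using fun j : ℕ => hcon ((j : ℝ) + 1) (by positivity)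
  obtain ⟨P⟩ := hPKG H hH2
  have hev : ∀ᶠ j : ℕ in (hyperfilter ℕ : Filter ℕ), ∀ z ∈ X,
      (badR (ξ j) d A ((j : ℝ) + 1) (H j) z →
        ∀ᶠ j : ℕ in (hyperfilter ℕ : Filter ℕ), badR (ξ j) d A ((j : ℝ) + 1) (H j) z) := by
    refine (Filter.eventually_all_finset X).2 fun z hz => ?_
    by_cases hzS : ∀ᶠ j : ℕ in (hyperfilter ℕ : Filter ℕ), badR (ξ j) d A ((j : ℝ) + 1) (H j) z
    · exact Filter.Eventually.of_forall fun j _ => hzS
    · have := Ultrafilter.eventually_not.2 hzS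
      filter_upwards [this] with j hj h using absurd h hj
  obtain ⟨j, hj⟩ := hev.exists
  refine hH j fun v k u hu hI => ?_
  have hIX : ∀ I : Finset (Fin k), v + ∑ i ∈ I, u i ∈ X := fun I => (hI I).1
  have hrel : ∀ I : Finset (Fin k), RelR P.kb (fun i => P.ev (fun j => ξ j i)) d
      (P.cst (v + ∑ i ∈ I, u i)) := fun I =>
    Pool.Agent.H67.BF.AAR.rel_of_ev hEVP P d A ξ hξ _ (hj _ (hI I).1 (hI I).2)
  have hv : IsAlgebraic ℚ (Complex.exp v) := hX _ (by simpa using hIX ∅)
  have hua : ∀ i, IsAlgebraic ℚ (Complex.exp (u i)) := by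
    intro i
    have h1 : IsAlgebraic ℚ (Complex.exp (v + u i)) := hX _ (by simpa using hIX {i})
    have h2 : Complex.exp (u i) = Complex.exp (v + u i) * (Complex.exp v)⁻¹ := by
      rw [Complex.exp_add]
      field_simp [Complex.exp_ne_zero]
    rw [h2]
    exact h1.mul hv.inv
  have hli := hBFF hBF k u hu hua H P
  have hli' : LinearIndependent P.kb (fun i => P.cst (u i)) := by
    have := hli.comp Fin.succ (Fin.succ_injective _)
    simpa [Function.comp_def] using this
  have hcz : CharZero P.kb := by infer_instance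
  exact hκ P.kb P.F _ (P.cst v) k (fun i => P.cst (u i)) hli' (by
    intro I
    have h3 := hrel I
    rwa [Pool.Agent.H67.BF.cst_sum] at h3)

end Pool.Agent.H19.AAP.CUF
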