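import Pool.Agent.H72.AAP.Targets

set_option autoImplicit false

open Finset

namespace Pool.Agent.H19.AAP.EUL

open Pool.Agent.H72.AAP

/-- the summand -/
noncomputable def f (y z : ℝ) (n : ℕ) : ℝ := z ^ omegaY y n / (n : ℝ)

theorem f_one (y z : ℝ) : f y z 1 = 1 := by
  simp [f, omegaY]

theorem f_mul (y z : ℝ) {m n : ℕ} (h : Nat.Coprime m n) : f y z (m * n) = f y z m * f y z n := by
  have h1 : omegaY y (m * n) = omegaY y m + omegaY y n := by
    unfold omegaY
    rw [h.primeFactors_mul, filter_union, card_union_of_disjoint]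
    exact disjoint_filter_filter h.disjoint_primeFactors
  unfold f
  rw [h1, pow_add]
  push_cast
  rw [mul_div_mul_comm]

theorem f_pow (y z : ℝ) {p : ℕ} (hp : p.Prime) (n : ℕ) :
    f y z (p ^ (n + 1)) = (if y < (p : ℝ) then z else 1) * (1 / (p : ℝ)) * (1 / (p : ℝ)) ^ n := by
  unfold f omegaY
  rw [Nat.primeFactors_prime_pow (Nat.succ_ne_zero n) hp, filter_singleton]
  have hp0 : (p : ℝ) ≠ 0 := by exact_mod_cast hp.ne_zero
  split_ifs with h
  · rw [card_singleton, pow_one]
    push_cast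
    rw [div_eq_mul_one_div, ← one_div_pow, pow_succ]
    ring
  · rw [card_empty, pow_zero]
    push_cast
    rw [← one_div_pow, pow_succ]
    ring

theorem hasSum_pow (y z : ℝ) {p : ℕ} (hp : p.Prime) :
    HasSum (fun n : ℕ => f y z (p ^ n)) (1 + (if y < (p : ℝ) then z else 1) / ((p : ℝ) - 1)) := by
  have hp2 : (2 : ℝ) ≤ p := by exact_mod_cast hp.two_le
  have h1 : HasSum (fun n : ℕ => f y z (p ^ (n + 1)))
      ((if y < (p : ℝ) then z else 1) * (1 / (p : ℝ)) * (1 - 1 / (p : ℝ))⁻¹) := by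
    simp only [f_pow y z hp]
    refine (hasSum_geometric_of_lt_one (by positivity) ?_).mul_left _
    rw [div_lt_one (by linarith)]
    linarith
  have h2 := (hasSum_nat_add_iff (f := fun n : ℕ => f y z (p ^ n)) 1).mp h1
  rw [sum_range_one, pow_zero, f_one] at h2
  have e : (if y < (p : ℝ) then z else 1) * (1 / (p : ℝ)) * (1 - 1 / (p : ℝ))⁻¹ + 1 =
      1 + (if y < (p : ℝ) then z else 1) / ((p : ℝ) - 1) := by
    have h3 : (p : ℝ) ≠ 0 := by linarith
    have h4 : (p : ℝ) - 1 ≠ 0 := by linarith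
    have h5 : 1 - 1 / (p : ℝ) = ((p : ℝ) - 1) / p := by field_simp
    rw [h5]
    field_simp
    ring
  rw [e] at h2
  exact h2

theorem pf_EUL : T_EUL := by
  intro y z hz hz1 x
  have hf0 : ∀ n, 0 ≤ f y z n := fun n => by
    unfold f
    positivity
  obtain ⟨-, h⟩ := EulerProduct.summable_and_hasSum_factoredNumbers_prod_filter_prime_tsum
    (f := f y z) (f_one y z) (fun {m n} h => f_mul y z h)
    (fun {p} hp => by
      have h1 := (hasSum_pow y z hp).summable
      refine h1.congr fun n => ?_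
      rw [Real.norm_of_nonneg (hf0 _)]) (Icc 1 x)
  have h' : HasSum ((Nat.factoredNumbers (Icc 1 x)).indicator (f y z))
      (∏ p ∈ (Icc 1 x).filter Nat.Prime, ∑' n : ℕ, f y z (p ^ n)) := by
    rw [← hasSum_subtype_iff_indicator]
    exact h
  have h1 : ∑ n ∈ Icc 1 x, (Nat.factoredNumbers (Icc 1 x)).indicator (f y z) n ≤
      ∏ p ∈ (Icc 1 x).filter Nat.Prime, ∑' n : ℕ, f y z (p ^ n) := by
    refine sum_le_hasSum _ (fun n _ => ?_) h'
    exact Set.indicator_nonneg (fun a _ => hf0 a) n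
  have h2 : ∑ n ∈ Icc 1 x, (Nat.factoredNumbers (Icc 1 x)).indicator (f y z) n =
      ∑ n ∈ Icc 1 x, z ^ omegaY y n / (n : ℝ) := by
    refine sum_congr rfl fun n hn => ?_
    rw [Set.indicator_of_mem]
    · rfl
    · rw [mem_Icc] at hn
      refine ⟨by omega, fun p hp => ?_⟩
      rw [mem_Icc]
      have hpp := Nat.prime_of_mem_primeFactorsList hp
      exact ⟨hpp.one_le, (Nat.le_of_mem_primeFactorsList hp).trans hn.2⟩
  rw [h2] at h1
  refine h1.trans ?_
  rw [Real.exp_sum]
  refine prod_le_prod (fun p hp => ?_) fun p hp => ?_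
  · exact tsum_nonneg fun n => hf0 _
  · rw [(hasSum_pow y z (mem_filter.mp hp).2).tsum_eq, add_comm]
    exact Real.add_one_le_exp _

end Pool.Agent.H19.AAP.EUL
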